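import Mathlib
import Pool.Agent.W973.IP.Defs

/-!
# Explicit Lojasiewicz exponent for positive polynomials of degree at most four
-/

set_option autoImplicit false

namespace Pool.Agent.W768.IP
open Pool.Agent.W973.IP
open MvPolynomial hiding X

theorem cont_sq (n : ℕ) : Continuous fun w : Vec n => ∑ j, w j ^ 2 := by fun_prop

theorem abs_le_sqrt_of {n : ℕ} {w : Vec n} {ρ : ℝ} (h : ∑ j, w j ^ 2 ≤ ρ) (j : Fin n) :
    |w j| ≤ Real.sqrt ρ := by
  apply Real.abs_le_sqrt
  exact le_trans (Finset.single_le_sum (f := fun j => w j ^ 2) (fun i _ => sq_nonneg _)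
    (Finset.mem_univ j)) h

theorem isCompact_ball (n : ℕ) (ρ : ℝ) : IsCompact {w : Vec n | ∑ j, w j ^ 2 ≤ ρ} := by
  apply Metric.isCompact_of_isClosed_isBounded
  · exact isClosed_le (cont_sq n) continuous_const
  · rw [Metric.isBounded_iff_subset_closedBall 0]
    refine ⟨Real.sqrt ρ, ?_⟩
    intro w hw
    rw [mem_closedBall_zero_iff, pi_norm_le_iff_of_nonneg (Real.sqrt_nonneg _)]
    intro j
    rw [Real.norm_eq_abs]
    exact abs_le_sqrt_of hw j

theorem isCompact_sph (n : ℕ) (ρ : ℝ) : IsCompact {w : Vec n | ∑ j, w j ^ 2 = ρ} := by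
  apply (isCompact_ball n ρ).of_isClosed_subset
  · exact isClosed_eq (cont_sq n) continuous_const
  · intro w hw
    exact le_of_eq hw

theorem sph_nonempty (m : ℕ) (ρ : ℝ) (hρ : 0 < ρ) :
    {w : Vec (m + 1) | ∑ j, w j ^ 2 = ρ}.Nonempty := by
  refine ⟨Pi.single 0 (Real.sqrt ρ), ?_⟩
  show ∑ j, (Pi.single 0 (Real.sqrt ρ) : Vec (m + 1)) j ^ 2 = ρ
  rw [Finset.sum_eq_single 0]
  · rw [Pi.single_eq_same, Real.sq_sqrt hρ.le]
  · intro j _ hj
    rw [Pi.single_eq_of_ne hj]
    simp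
  · simp

theorem dot_le {n : ℕ} {b w : Vec n} {ρ : ℝ} (h : ∑ j, w j ^ 2 ≤ ρ) :
    |∑ j, b j * w j| ≤ Real.sqrt ρ * ∑ j, |b j| := by
  calc |∑ j, b j * w j| ≤ ∑ j, |b j * w j| := Finset.abs_sum_le_sum_abs _ _
    _ ≤ ∑ j, Real.sqrt ρ * |b j| := by
        refine Finset.sum_le_sum fun j _ => ?_
        rw [abs_mul, mul_comm]
        exact mul_le_mul_of_nonneg_right (abs_le_sqrt_of h j) (abs_nonneg _)
    _ = _ := by rw [Finset.mul_sum]

theorem loj (h1 : S_LOJ1) (h2 : S_LOJ2) (h3 : S_LOJ3) : S_LOJ := by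
  intro n f hdeg hpos
  rcases Nat.eq_zero_or_pos n with hn | hn
  · subst hn
    refine ⟨eval 0 f, hpos 0, ?_⟩
    intro w
    have hw : w = 0 := Subsingleton.elim _ _
    rw [hw]
    simp [X]
  obtain ⟨m, rfl⟩ : ∃ m, n = m + 1 := ⟨n - 1, by omega⟩
  obtain ⟨R, hR, hRd, hrel⟩ := h1 (m + 1) f hdeg
  set D := (4 * (m + 1 + 2)) ^ (m + 1 + 1) with hD
  obtain ⟨Q, hQ, hQd, hspec⟩ := h2 (m + 1) D R hR hRd
  obtain ⟨κ, hκ, ρ0, hρ0, hlow⟩ := h3 Q D hQ hQd
  have hcf : Continuous fun w : Vec (m + 1) => eval w f := continuous_eval f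
  have hsph : ∀ ρ : ℝ, 0 < ρ → ρ0 ≤ ρ → ∀ w : Vec (m + 1), ∑ j, w j ^ 2 = ρ →
      κ ≤ eval w f * ρ ^ D := by
    intro ρ hρ hρ' w hw
    have hmin : ∀ b : Vec (m + 1), ∃ x : Vec (m + 1), ∑ j, x j ^ 2 = ρ ∧
        ∀ y : Vec (m + 1), ∑ j, y j ^ 2 = ρ →
          eval x f + ∑ j, b j * x j ≤ eval y f + ∑ j, b j * y j := by
      intro b
      have hc : Continuous fun w : Vec (m + 1) => eval w f + ∑ j, b j * w j := by
        refine hcf.add ?_
        fun_prop
      obtain ⟨x, hx, hx'⟩ := (isCompact_sph (m + 1) ρ).exists_isMinOn (sph_nonempty m ρ hρ)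
        hc.continuousOn
      exact ⟨x, hx, fun y hy => hx' hy⟩
    choose x hx hx' using hmin
    have hz : ∀ b, aeval (Sum.elim b ![ρ, eval (x b) f + ∑ j, b j * x b j]) R = 0 := by
      intro b
      have hne : x b ≠ 0 := by
        intro h0
        have := hx b
        rw [h0] at this
        simp at this
        exact hρ.ne this
      have := hrel b (x b) hne (fun w' hw' => hx' b w' (by rw [hw', hx b]))
      rwa [hx b] at this
    have hbd : ∀ b : Vec (m + 1), |(eval (x b) f + ∑ j, b j * x b j) -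
        (eval (x 0) f + ∑ j, (0 : Vec (m + 1)) j * x 0 j)| ≤ Real.sqrt ρ * ∑ j, |b j| := by
      intro b
      have e1 := hx' b (x 0) (hx 0)
      have e2 := hx' 0 (x b) (hx b)
      have e3 := abs_le.1 (dot_le (b := b) (hx 0).le)
      have e4 := abs_le.1 (dot_le (b := b) (hx b).le)
      simp only [Pi.zero_apply, zero_mul, Finset.sum_const_zero, add_zero] at e2 ⊢
      rw [abs_le]
      constructor <;> linarith [e3.1, e3.2, e4.1, e4.2]
    have hcont : ContinuousAt (fun b : Vec (m + 1) => eval (x b) f + ∑ j, b j * x b j) 0 := by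
      unfold ContinuousAt
      rw [tendsto_iff_dist_tendsto_zero]
      refine squeeze_zero (fun _ => dist_nonneg) (fun b => ?_)
        (g := fun b : Vec (m + 1) => Real.sqrt ρ * ∑ j, |b j|) ?_
      · rw [Real.dist_eq]
        exact hbd b
      · have hc : Continuous fun b : Vec (m + 1) => Real.sqrt ρ * ∑ j, |b j| := by fun_prop
        have := hc.tendsto 0
        simpa using this
    have hQ0 := hspec ρ _ hz hcont
    simp only [Pi.zero_apply, zero_mul, Finset.sum_const_zero, add_zero] at hQ0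
    have hl := hlow ρ hρ' (eval (x 0) f) (hpos _) hQ0
    have hle : eval (x 0) f ≤ eval w f := by
      have := hx' 0 w hw
      simpa using this
    exact hl.trans (mul_le_mul_of_nonneg_right hle (by positivity))
  have hX : ∀ w : Vec (m + 1), 1 ≤ X w := by
    intro w
    unfold X
    have : 0 ≤ ∑ j, w j ^ 2 := Finset.sum_nonneg fun _ _ => sq_nonneg _
    linarith
  obtain ⟨y, -, hy⟩ := (isCompact_ball (m + 1) ρ0).exists_isMinOn
    ⟨0, by simpa using hρ0.le⟩ hcf.continuousOn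
  refine ⟨min κ (eval y f), lt_min hκ (hpos y), ?_⟩
  intro w
  rcases le_total ρ0 (∑ j, w j ^ 2) with h | h
  · have h5 := hsph _ (hρ0.trans_le h) h w rfl
    refine (min_le_left _ _).trans (h5.trans ?_)
    refine mul_le_mul_of_nonneg_left ?_ (hpos w).le
    have h6 : 0 ≤ ∑ j, w j ^ 2 := hρ0.le.trans h
    refine pow_le_pow_left₀ h6 ?_ D
    unfold X
    linarith
  · have h5 : eval y f ≤ eval w f := hy h
    refine (min_le_right _ _).trans (h5.trans ?_)
    exact le_mul_of_one_le_right (hpos w).le (one_le_pow₀ (hX w))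

end Pool.Agent.W768.IP
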